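import Pool.Agent.H80.G2.Targets

/-!
# Row CFC of the board gmm_modules (helper72)
-/

set_option autoImplicit false

open Pool.Agent.H80.G2

namespace Pool.Agent.H72.G2

theorem pf_CFC : T_CFC := by
  intro H _ _ _ M a ha has f
  apply mem_of_comm
  intro y hy
  have hc : Commute a y := hy a ha
  have hc2 : Commute (star a) y := by rw [has]; exact hc
  exact (Commute.cfc_real hc f)

end Pool.Agent.H72.G2
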